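import Mathlib
import Pool.Agent.Helper94.Five

set_option autoImplicit false

namespace Pool.Agent.Results.MP_9682d1_al.FiveEngel

/-- The commutator `[a, x] = a⁻¹ a^x`, where `a^x = x⁻¹ a x`. -/
def com {G : Type} [Group G] (a x : G) : G := a⁻¹ * (x⁻¹ * a * x)

/-- The iterated commutator: `[a, ₀ x] = a` and `[a, ₖ₊₁ x] = [[a, ₖ x], x]`. -/
def icom {G : Type} [Group G] (a x : G) : ℕ → G
  | 0 => a
  | k + 1 => com (icom a x k) x

/-- The set `R_k(G)` of right `k`-Engel elements of `G`. -/
def R (k : ℕ) (G : Type) [Group G] : Set G := {a | ∀ x : G, icom a x k = 1}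

/-- The Baer radical `B(G)`: the subgroup generated by all subnormal cyclic subgroups. -/
def B (G : Type) [Group G] : Subgroup G :=
  Subgroup.closure {y : G | (Subgroup.zpowers y).IsSubnormal}

/-- The set of positive integers `m` such that `R_m(G) ⊄ B(G)` for some group `G`. -/
def M : Set ℕ := {m | 0 < m ∧ ∃ (G : Type) (_ : Group G), ¬ (R m G ⊆ (B G : Set G))}

theorem iterate_eq {G : Type} [Group G] (x : G) (k : ℕ) (a : G) :
    (fun y : G => y⁻¹ * x⁻¹ * y * x)^[k] a = icom a x k := by
  induction k with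
  | zero => rfl
  | succ k ih =>
    rw [Function.iterate_succ_apply', ih]
    show _ = (icom a x k)⁻¹ * (x⁻¹ * icom a x k * x)
    group

theorem five_mem_M : 5 ∈ M := by
  refine ⟨by norm_num, Pool.Agent.Helper94.Five.G5 Pool.Agent.Helper94.JJ, inferInstance, ?_⟩
  intro h
  have h1 : Pool.Agent.Helper94.Five.a5 ∈ R 5 (Pool.Agent.Helper94.Five.G5 Pool.Agent.Helper94.JJ) := by
    intro x
    rw [← iterate_eq]
    exact Pool.Agent.Helper94.Five.a5_engel x
  have h2 := h h1
  refine Pool.Agent.Helper94.Five.not_mem_Gam5 (((Subgroup.closure_le _).2 ?_) h2)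
  intro y hy
  exact Pool.Agent.Helper94.Five.baer_le y hy

/-- There is a group with a right `5`-Engel element outside the Baer radical; so the least `m`
exists and is at most `5`. -/
theorem result :
    (∃ (G : Type) (_ : Group G), ∃ a ∈ R 5 G, a ∉ B G) ∧ M.Nonempty ∧ sInf M ≤ 5 := by
  refine ⟨?_, ⟨5, five_mem_M⟩, Nat.sInf_le five_mem_M⟩
  obtain ⟨_, G, iG, h⟩ := five_mem_M
  refine ⟨G, iG, ?_⟩
  rw [Set.not_subset] at h
  exact h

end Pool.Agent.Results.MP_9682d1_al.FiveEngel
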